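import Pool.Agent.W586.GZ.Stm

set_option autoImplicit false

namespace Pool.Agent.W924.GZD

open Pool.Agent.W586.GZ

theorem main : S_REC1 → S_DEPH1 → S_DEPH2 → S_DEP := by
  intro hR h1 h2 P j y f q hD
  have hm8 : 8 ≤ P.m (2 * j + 1) := by
    rw [P.mS]
    have := P.mpos (2 * j)
    calc 8 = 2 ^ 3 := by norm_num
      _ ≤ P.m (2 * j) ^ 3 := Nat.pow_le_pow_left this 3
  have hn := P.nS (2 * j)
  have key := hR P (P.n (2 * j + 1)) (2 * j + 1) y (24 / (P.m (2 * j + 1) : ℝ) ^ 2) 12 36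
    (by positivity) (by norm_num) (by norm_num) hD.ys (fun i hi => (hD.ex i hi).all)
    (by
      intro I hI t ht g hg
      rcases Nat.eq_or_lt_of_le ht with h | h
      · subst h
        exact h1 P j y f q hD I hI g hg
      · exact h2 P j y f q hD I hI t (by omega) g hg)
    (2 * P.m (2 * j + 1)) (Finset.range (P.n (2 * j + 1))) (Finset.Subset.refl _)
  refine key.mono ?_
  rw [Finset.card_range, show 2 * j + 1 - 1 = 2 * j by omega]
  generalize P.m (2 * j + 1) = m at *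
  generalize P.n (2 * j + 1) = N at *
  generalize P.n (2 * j) = n0 at *
  have hm0 : (0 : ℝ) < m := by exact_mod_cast (by omega : 0 < m)
  have a1 : (m : ℝ) ^ 2 ≤ 2 ^ (2 * m) := by
    rw [pow_mul']
    apply pow_le_pow_left₀ hm0.le
    exact_mod_cast Nat.lt_two_pow_self.le
  have a2 : 12 * (N : ℝ) / 2 ^ (2 * m) ≤ 12 * (N : ℝ) / (m : ℝ) ^ 2 :=
    div_le_div_of_nonneg_left (by positivity) (by positivity) a1
  have a3 : m ^ 3 * (n0 + 1) ^ (2 * m) ≤ N :=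
    le_trans (Nat.mul_le_mul_left _ (Nat.pow_le_pow_right (by omega) (by omega))) hn
  have a4 : 6 * m ^ 2 * (n0 + 1) ^ (2 * m) ≤ N := by
    refine le_trans (Nat.mul_le_mul_right _ ?_) a3
    calc 6 * m ^ 2 ≤ m * m ^ 2 := Nat.mul_le_mul_right _ (by omega)
      _ = m ^ 3 := by ring
  have a5 : 6 * (m : ℝ) ^ 2 * ((n0 : ℝ) + 1) ^ (2 * m) ≤ N := by exact_mod_cast a4
  have a6 : 2 * 36 * ((n0 : ℝ) + 1) ^ (2 * m) ≤ 12 * (N : ℝ) / (m : ℝ) ^ 2 := by
    rw [le_div_iff₀ (by positivity)]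
    nlinarith [a5]
  have e1 : 24 / (m : ℝ) ^ 2 * N + 12 * N / (m : ℝ) ^ 2 + 12 * N / (m : ℝ) ^ 2 =
      48 * N / (m : ℝ) ^ 2 := by ring
  linarith

end Pool.Agent.W924.GZD
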